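import Pool.Agent.F3.Worlds

/-!
# Project F3: the outputs of the blocks AB, HB, OG, GE and the abstract assembly
-/

set_option autoImplicit false
set_option linter.unusedSectionVars false

namespace F3

open Finset NW F1

section TDefs

variable {V : Type} [Fintype V] [DecidableEq V]

/-- no invariants -/
def g0 : Fin 0 → Sym2 V → ℤ := fun j => j.elim0

/-- one cut -/
def g1 (χ : V → Bool) : Fin 1 → Sym2 V → ℤ := fun _ => gam χ

/-- the cuts `sd` and `pt` -/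
def g2 (sd pt : V → Bool) : Fin 2 → Sym2 V → ℤ := fun j => if j = 0 then gam sd else gam pt

/-- core triangles of a rigid world and crossing triangles through `e₀` -/
def alR0 (fl : Bool → Bool) (sd pt : V → Bool) (e₀ : Sym2 V) (T : Tri V) : Prop :=
  alR fl sd pt T ∨ (Cro sd T ∧ e₀ ∈ NW.edg T.1)

/-- `e₀` is an exceptional edge with a typical end and many apexes in both opposite parts -/
structure Spec0 (H : Finset (Sym2 V)) (fl : Bool → Bool) (sd pt : V → Bool) (At : Finset V)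
    (e₀ : Sym2 V) (c : ℝ) : Prop where
  typ : ∃ v ∈ e₀, v ∉ At
  int : Int sd e₀
  nd : ¬ e₀.IsDiag
  exc : ∀ u v, e₀ = s(u, v) → ¬ Co fl sd pt u v
  apex : ∀ u v, e₀ = s(u, v) → ∀ b : Bool, c * nn V ≤
    (((Pa sd pt (!sd u) b \ At).filter (fun w => s(u, w) ∈ H ∧ s(v, w) ∈ H)).card : ℝ)

/-- the placements of a booster with allowed faces -/
noncomputable def PlA (c : ℕ) (al : Tri V → Prop) (E : Finset (Sym2 V)) (r : Tri V) :
    Finset (Fin (c + 2) → V) := by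
  classical exact (F2.Pl c E r).filter (fun h => ∀ T ∈ F2.ON c h ∪ F2.OFF c h, al T)

/-- many placements with faces of the class `al` for all roots of the class `ar` with edges in
`H ∪ E0` -/
def PlOK (ar al : Tri V → Prop) (H E0 : Finset (Sym2 V)) (η : ℝ) (c : ℕ) (B : ℝ) : Prop :=
  ∀ Z : Finset (Sym2 V), Sm η Z → ∀ r : Tri V, ar r → NW.edg r.1 ⊆ H ∪ E0 →
    nn V ^ (c - 1) ≤ B * ((PlA c al (H \ Z) r).card : ℝ)

open Classical in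
/-- the allowed triples through `e` with the two other edges in `X` -/
noncomputable def vtr (al : Tri V → Prop) (X : Finset (Sym2 V)) (e : Sym2 V) : Finset (Tri V) :=
  univ.filter (fun T => al T ∧ e ∈ NW.edg T.1 ∧ NW.edg T.1 \ {e} ⊆ X)

/-- many allowed triples over every edge of `E` with two edges in `H` -/
def VirtOK (al : Tri V → Prop) (E H : Finset (Sym2 V)) (c : ℝ) : Prop :=
  ∀ e ∈ E, c * nn V ≤ ((vtr al H e).card : ℝ)

/-- the invariants of a set which contains `X` can be made divisible by 6 by deleting few edges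
of `X` -/
def AdjOK {r : ℕ} (H E0 X : Finset (Sym2 V)) (γ : Fin r → Sym2 V → ℤ) : Prop :=
  ∀ D, D ⊆ H ∪ E0 → X ⊆ D → ∃ R, R ⊆ X ∧ R.card ≤ 36 ∧ ∀ j, 6 ∣ ∑ e ∈ D \ R, γ j e

/-- sizes of a grid -/
structure GridS (V : Type) [Fintype V] [DecidableEq V] (s : ℕ) (ro co : V → ℕ) : Prop where
  ro_lt : ∀ v, ro v < s
  co_lt : ∀ v, co v < s
  ne : ∀ x < s, ∀ y < s, (F2.Pt ro co x y).Nonempty
  row : ∀ x, (F2.Rw ro x).card * s ≤ 2 * Fintype.card V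
  col : ∀ x, (F2.Rw co x).card * s ≤ 2 * Fintype.card V
  part : ∀ x y, (F2.Pt ro co x y).card * s ^ 2 ≤ 2 * Fintype.card V

end TDefs

/-! ## Block AB (helper95) -/

def ABNStatement : Prop :=
  ∀ θ : ℝ, 0 < θ → ∃ η : ℝ, 0 < η ∧ ∀ m : ℕ, ∃ C n₀ : ℕ,
    ∀ (V : Type) [Fintype V] [DecidableEq V] (H : Finset (Sym2 V)), n₀ ≤ Fintype.card V →
      RobN H θ → AbsOK (fun _ => True) H (Good0 g0 (fun _ => 0)) η m C

def ABGStatement : Prop :=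
  ∀ θ : ℝ, 0 < θ → ∃ ε η : ℝ, 0 < ε ∧ 0 < η ∧ ∀ m : ℕ, ∃ C n₀ : ℕ,
    ∀ (V : Type) [Fintype V] [DecidableEq V] (H : Finset (Sym2 V)) (sd : V → Bool)
      (At : Finset V), n₀ ≤ Fintype.card V → RobG H sd At ε θ →
      AbsOK (alG sd) H (Good0 (g1 sd) (fun _ => 0)) η m C

def ABSStatement : Prop :=
  ∀ θ : ℝ, 0 < θ → ∃ ε η : ℝ, 0 < ε ∧ 0 < η ∧ ∀ m : ℕ, ∃ C n₀ : ℕ,
    ∀ (V : Type) [Fintype V] [DecidableEq V] (E H : Finset (Sym2 V)) (sd : V → Bool)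
      (At : Finset V), n₀ ≤ Fintype.card V → WS E H sd At ε θ →
      AbsOK (fun _ => True) H (Good0 g0 (fun _ => 0)) η m C

/-- types DD and PD -/
def ABRStatement : Prop :=
  ∀ c : ℝ, 0 < c → ∃ ε η : ℝ, 0 < ε ∧ 0 < η ∧ ∀ m : ℕ, ∃ C n₀ : ℕ,
    ∀ (V : Type) [Fintype V] [DecidableEq V] (H : Finset (Sym2 V)) (fl : Bool → Bool)
      (sd pt : V → Bool) (At : Finset V), n₀ ≤ Fintype.card V → fl false = true →
      RobR H fl sd pt At ε →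
      AbsOK (alR fl sd pt) H (Good0 (g1 sd) (tau fl sd pt)) η m C ∧
      ∀ e₀ : Sym2 V, Spec0 H fl sd pt At e₀ c →
        AbsOK0 (alR0 fl sd pt e₀) H (g1 sd) e₀ η m C

/-- type PP -/
def ABTStatement : Prop :=
  ∃ ε η : ℝ, 0 < ε ∧ 0 < η ∧ ∀ m : ℕ, ∃ C n₀ : ℕ,
    ∀ (V : Type) [Fintype V] [DecidableEq V] (H : Finset (Sym2 V))
      (sd pt : V → Bool) (At : Finset V), n₀ ≤ Fintype.card V →
      RobR H (fun _ => false) sd pt At ε →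
      AbsOK (alR (fun _ => false) sd pt) H (Good0 (g2 sd pt) (fun _ => 0)) η m C

/-! ## Block HB (helper4) -/

/-- world N: pieces, boosters, virtual triples -/
def HBNStatement : Prop :=
  ∀ θ : ℝ, 0 < θ → ∃ η cv : ℝ, 0 < η ∧ 0 < cv ∧ ∃ n₀ : ℕ,
    (∀ (V : Type) [Fintype V] [DecidableEq V] (H : Finset (Sym2 V)), n₀ ≤ Fintype.card V →
      RobN H θ → PieceOK H η ∧ VirtOK (fun _ => True) H H cv) ∧
    ∀ c : ℕ, 6 ≤ c → Even c → ∃ (B : ℝ) (n₁ : ℕ), 0 < B ∧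
      ∀ (V : Type) [Fintype V] [DecidableEq V] (H : Finset (Sym2 V)), n₁ ≤ Fintype.card V →
        RobN H θ → PlOK (fun _ => True) (fun _ => True) H ∅ η c B

/-- world S -/
def HBSStatement : Prop :=
  ∀ θ : ℝ, 0 < θ → ∃ ε η cv : ℝ, 0 < ε ∧ 0 < η ∧ 0 < cv ∧ ∃ n₀ : ℕ,
    (∀ (V : Type) [Fintype V] [DecidableEq V] (E H : Finset (Sym2 V)) (sd : V → Bool)
      (At : Finset V), n₀ ≤ Fintype.card V → NW.NL E → WS E H sd At ε θ →
      PieceOK H η ∧ VirtOK (fun _ => True) E H cv) ∧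
    ∀ c : ℕ, 6 ≤ c → Even c → ∃ (B : ℝ) (n₁ : ℕ), 0 < B ∧
      ∀ (V : Type) [Fintype V] [DecidableEq V] (E H : Finset (Sym2 V)) (sd : V → Bool)
        (At : Finset V), n₁ ≤ Fintype.card V → WS E H sd At ε θ →
        PlOK (fun _ => True) (fun _ => True) H ∅ η c B

/-- world G -/
def HBGStatement : Prop :=
  ∀ θ c₀ : ℝ, 0 < θ → 0 < c₀ → ∃ ε η cv : ℝ, 0 < ε ∧ 0 < η ∧ 0 < cv ∧ ∃ n₀ : ℕ,
    (∀ (V : Type) [Fintype V] [DecidableEq V] (E De H : Finset (Sym2 V)) (sd : V → Bool)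
      (At : Finset V), n₀ ≤ Fintype.card V → WG E De H sd At ε θ c₀ →
      PieceOK H η ∧ VirtOK (alX De sd) E H cv ∧
      ∀ (j : Fin 1) (σ : ℤ), (σ = 1 ∨ σ = -1) →
        TokenOK H (g1 sd) (fun _ => 0) η (fun i => if i = j then 6 * σ else 0) 0) ∧
    ∀ c : ℕ, 6 ≤ c → Even c → ∃ (B : ℝ) (n₁ : ℕ), 0 < B ∧
      ∀ (V : Type) [Fintype V] [DecidableEq V] (E De H : Finset (Sym2 V)) (sd : V → Bool)
        (At : Finset V), n₁ ≤ Fintype.card V → WG E De H sd At ε θ c₀ →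
        PlOK (alG sd) (alG sd) H ∅ η c B

/-- world R -/
def HBRStatement : Prop :=
  ∀ θ c₀ : ℝ, 0 < θ → 0 < c₀ → ∃ ε η cv : ℝ, 0 < ε ∧ 0 < η ∧ 0 < cv ∧ ∃ n₀ : ℕ,
    (∀ (V : Type) [Fintype V] [DecidableEq V] (E De H : Finset (Sym2 V)) (fl : Bool → Bool)
      (sd pt : V → Bool) (At : Finset V) (e₀ : Sym2 V), n₀ ≤ Fintype.card V →
      WR E De H fl sd pt At e₀ ε θ c₀ →
      PieceOK H η ∧ VirtOK (alX De sd) E H cv ∧
      (∀ (j : Fin 1) (σ : ℤ), (σ = 1 ∨ σ = -1) →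
        TokenOK H (g1 sd) (tau fl sd pt) η (fun i => if i = j then 6 * σ else 0) 0) ∧
      TokenOK H (g1 sd) (tau fl sd pt) η (fun _ => 0) 2) ∧
    ∀ c : ℕ, 6 ≤ c → Even c → ∃ (B : ℝ) (n₁ : ℕ), 0 < B ∧
      ∀ (V : Type) [Fintype V] [DecidableEq V] (E De H : Finset (Sym2 V)) (fl : Bool → Bool)
        (sd pt : V → Bool) (At : Finset V) (e₀ : Sym2 V), n₁ ≤ Fintype.card V →
        WR E De H fl sd pt At e₀ ε θ c₀ → PlOK (alR0 fl sd pt e₀) (Cro sd) H {e₀} η c B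

/-- world T -/
def HBTStatement : Prop :=
  ∀ c₀ : ℝ, 0 < c₀ → ∃ ε η cv : ℝ, 0 < ε ∧ 0 < η ∧ 0 < cv ∧ ∃ n₀ : ℕ,
    (∀ (V : Type) [Fintype V] [DecidableEq V] (E H : Finset (Sym2 V)) (sd pt : V → Bool)
      (ty : Sym2 V → Fin 3) (At : Finset V), n₀ ≤ Fintype.card V → WT E H sd pt ty At ε c₀ →
      PieceOK H η ∧ VirtOK (alT sd pt ty) E H cv ∧
      ∀ (j : Fin 2) (σ : ℤ), (σ = 1 ∨ σ = -1) →
        TokenOK H (g2 sd pt) (fun _ => 0) η (fun i => if i = j then 6 * σ else 0) 0) ∧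
    ∀ c : ℕ, 6 ≤ c → Even c → ∃ (B : ℝ) (n₁ : ℕ), 0 < B ∧
      ∀ (V : Type) [Fintype V] [DecidableEq V] (E H : Finset (Sym2 V)) (sd pt : V → Bool)
        (ty : Sym2 V → Fin 3) (At : Finset V), n₁ ≤ Fintype.card V →
        WT E H sd pt ty At ε c₀ →
        PlOK (alR (fun _ => false) sd pt) (alR (fun _ => false) sd pt) H ∅ η c B

/-- values of the invariants on divisible sets and on triangles -/
def ValStatement : Prop :=
  ∀ (V : Type) [Fintype V] [DecidableEq V],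
    (∀ (χ : V → Bool) (D : Finset (Sym2 V)), NW.Divis D → 6 ∣ ∑ e ∈ D, gam χ e) ∧
    (∀ (χ : V → Bool) (T : Tri V), Cro χ T → ∑ e ∈ NW.edg T.1, gam χ e = 0) ∧
    (∀ (fl : Bool → Bool) (sd pt : V → Bool) (D : Finset (Sym2 V)), fl false = true → NW.NL D →
      (∀ u v, s(u, v) ∈ D → Co fl sd pt u v) → (∀ v, Even (NW.deg D v)) →
      ∑ e ∈ D, tau fl sd pt e = 0 ∨ ∑ e ∈ D, tau fl sd pt e = 2) ∧
    (∀ (fl : Bool → Bool) (sd pt : V → Bool) (T : Tri V), fl false = true → alR fl sd pt T →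
      ∑ e ∈ NW.edg T.1, tau fl sd pt e = 0) ∧
    (∀ (sd pt : V → Bool) (T : Tri V), alR (fun _ => false) sd pt T →
      ∑ e ∈ NW.edg T.1, gam sd e = 0 ∧ ∑ e ∈ NW.edg T.1, gam pt e = 0) ∧
    (∀ (sd pt : V → Bool) (ty : Sym2 V → Fin 3) (T : Tri V), alT sd pt ty T →
      ∀ t, ∑ e ∈ NW.edg T.1, gamT sd pt ty t e = 0) ∧
    (∀ (De : Finset (Sym2 V)) (sd : V → Bool) (T : Tri V), (∀ e ∈ De, Int sd e) → alX De sd T →
      ∑ e ∈ NW.edg T.1, gamX De sd e = 0)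

/-- the grid: the reserve is `Xs ro co H` -/
def GridXStatement : Prop :=
  ∀ c θ : ℝ, 0 < c → 0 < θ → θ ≤ 1 / 10 → ∃ n₀ : ℕ,
    ∀ (V : Type) [Fintype V] [DecidableEq V] (E H : Finset (Sym2 V)) (al : Tri V → Prop),
      NW.NL E → n₀ ≤ Fintype.card V → VirtOK al E H c →
      ∀ s : ℕ, 1 ≤ s → (s : ℝ) ≤ (Fintype.card V : ℝ) ^ θ →
        ∃ ro co : V → ℕ, GridS V s ro co ∧
          ∀ e ∈ E, c * nn V ≤ 2 * (s : ℝ) ^ 2 * ((vtr al (F2.Xs ro co H) e).card : ℝ)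

/-! ## Block OG (helper48) -/

/-- the omni-absorber; `E0` is empty or the special edge; `s₁` is `s` divided by a logarithm -/
def OGStatement : Prop :=
  ∀ r : ℕ, ∃ m : ℕ, ∀ (η : ℝ) (c : ℕ), 0 < η → ∃ C s₀ : ℕ,
    ∀ (V : Type) [Fintype V] [DecidableEq V] (al : Tri V → Prop) (H E0 : Finset (Sym2 V))
      (γ : Fin r → Sym2 V → ℤ) (τ : Sym2 V → ZMod 4) (s s₁ : ℕ) (ro co : V → ℕ),
      Host al H γ τ η m c → Tors al H γ τ η m c E0 → GridS V s ro co → s₀ ≤ s₁ →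
      s₁ * (Nat.log 2 (Fintype.card V) + 1) ≤ s → C * s ≤ Fintype.card V →
      AdjOK H E0 (F2.Xs ro co H) γ →
      ∃ (X A : Finset (Sym2 V)) (RT : Finset (Tri V)), X ⊆ F2.Xs ro co H ∧
        (F2.Xs ro co H \ X).card ≤ C ∧ A ⊆ (H \ F2.Xs ro co H) ∪ E0 ∧ E0 ⊆ A ∧
        (∀ r ∈ RT, al r ∧ NW.edg r.1 ⊆ A ∪ X) ∧
        (∀ v, NW.deg A v * s₁ ≤ C * Fintype.card V) ∧
        (∀ v, (RT.filter (fun r => v ∈ r.1)).card * s₁ ≤ C * Fintype.card V) ∧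
        (∀ e, (RT.filter (fun r => e ∈ NW.edg r.1)).card ≤ C) ∧
        (∀ j, ∑ e ∈ A ∪ X, γ j e = 0) ∧
        ∀ L, L ⊆ X → NW.Divis (A ∪ L) → (∀ j, ∑ e ∈ A ∪ L, γ j e = 0) →
          ∃ 𝒯 : Finset (Tri V), 𝒯 ⊆ RT ∧
            (∀ T ∈ 𝒯, ∀ T' ∈ 𝒯, T ≠ T' → Disjoint (NW.edg T.1) (NW.edg T'.1)) ∧
            𝒯.biUnion (fun T => NW.edg T.1) = A ∪ L

/-! ## Block GE (helper79): `F3.GE.EngineStatement` in Pool/Agent/F3/GE/Defs.lean -/

/-! ## The abstract assembly (helper34) -/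

/-- everything which a world has to provide; `al` allowed for nibble and cover, `alc` allowed for
the absorbers and boosters -/
structure World {V : Type} [Fintype V] [DecidableEq V] (al alc : Tri V → Prop)
    (E H E0 : Finset (Sym2 V)) {r : ℕ} (γ : Fin r → Sym2 V → ℤ) (τ : Sym2 V → ZMod 4)
    (η K κ cv : ℝ) (m cc c : ℕ) (B : ℝ) : Prop where
  div : NW.Divis E
  deg : ∀ v, 3 * Fintype.card V ≤ 4 * NW.deg E v
  H_sub : H ⊆ E
  E0_sub : E0 ⊆ E \ H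
  tri : ∀ T : Tri V, al T → NW.edg T.1 ⊆ E → ∀ j, ∑ e ∈ NW.edg T.1, γ j e = 0
  tot : ∀ j, ∑ e ∈ E, γ j e = 0
  host : Host alc H γ τ η m cc
  tors : Tors alc H γ τ η m cc E0
  place : PlOK alc al H E0 η c B
  virt : VirtOK al E H cv
  adj : ∀ X, X ⊆ H → (∀ e ∈ E, 12 ≤ (vtr al X e).card) → AdjOK H E0 X γ
  frac : ∀ R, R ⊆ H ∪ E0 → Sm κ R → (∀ j, ∑ e ∈ R, γ j e = 0) → ∀ Bd, SmT κ Bd →
    Frac K al (E \ R) Bd

def AsmStatement : Prop :=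
  ∀ r : ℕ, ∃ m : ℕ, ∀ (J cc : ℕ) (η K κ cv B : ℝ), 3 ≤ J → 0 < η → 0 < K → 0 < κ →
    0 < cv → 0 < B → ∀ c : ℕ, 6 ≤ c → Even c → J < c → ∃ n₀ : ℕ,
    ∀ (V : Type) [Fintype V] [DecidableEq V] (al alc : Tri V → Prop) (E H E0 : Finset (Sym2 V))
      (γ : Fin r → Sym2 V → ℤ) (τ : Sym2 V → ZMod 4), n₀ ≤ Fintype.card V →
      World al alc E H E0 γ τ η K κ cv m cc c B →
      ∃ 𝒯 : Finset (Finset V), NW.IsPack 𝒯 E ∧ 𝒯.biUnion NW.edg = E ∧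
        ∀ U : Finset V, 4 ≤ U.card → U.card ≤ J + 2 →
          (𝒯.filter (fun t => t ⊆ U)).card + 2 < U.card

end F3
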