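import Pool.Agent.F2.Spec
import Pool.Agent.F2.O.Spec

/-!
# Project F3 (MP_6a0350_co, S09297): common definitions

Exact threshold `3n/4`.  See the note P10 PLAN v1 on MP_6a0350_co.
-/

set_option autoImplicit false
set_option linter.unusedSectionVars false

namespace F3

open Finset NW F1

section Defs

variable {V : Type} [Fintype V] [DecidableEq V]

/-- `|V|` as a real number -/
noncomputable def nn (V : Type) [Fintype V] : ℝ := (Fintype.card V : ℝ)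

/-- walks `y - a - b - c - d - z` with `a, b, c, d ∈ W` -/
def walks5 (E : Finset (Sym2 V)) (W : Finset V) (y z : V) : Finset (V × V × V × V) :=
  (W ×ˢ W ×ˢ W ×ˢ W).filter (fun w => s(y, w.1) ∈ E ∧ s(w.1, w.2.1) ∈ E ∧
    s(w.2.1, w.2.2.1) ∈ E ∧ s(w.2.2.1, w.2.2.2) ∈ E ∧ s(w.2.2.2, z) ∈ E)

/-- decomposition into triangles of the class `al` -/
def DecA (al : Tri V → Prop) (E : Finset (Sym2 V)) : Prop :=
  ∃ 𝒯 : Finset (Tri V), (∀ T ∈ 𝒯, al T) ∧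
    (∀ T ∈ 𝒯, ∀ T' ∈ 𝒯, T ≠ T' → Disjoint (NW.edg T.1) (NW.edg T'.1)) ∧
    𝒯.biUnion (fun T => NW.edg T.1) = E

/-- small: `Z` has maximum degree at most `η n` -/
def Sm (η : ℝ) (Z : Finset (Sym2 V)) : Prop :=
  ∀ v, (NW.deg Z v : ℝ) ≤ η * nn V

/-- small set of vertices -/
def SmF (η : ℝ) (F : Finset V) : Prop := (F.card : ℝ) ≤ η * nn V

/-- sparse set of triples -/
def SmT (κ : ℝ) (B : Finset (Tri V)) : Prop :=
  ∀ e : Sym2 V, ((B.filter (fun T => e ∈ NW.edg T.1)).card : ℝ) ≤ κ * nn V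

/-- an exact fractional decomposition of `E` with weights `≤ K/n` on triangles of the class `al`
which are not in `B` -/
def Frac (K : ℝ) (al : Tri V → Prop) (E : Finset (Sym2 V)) (B : Finset (Tri V)) : Prop :=
  ∃ w : Tri V → ℝ, (∀ T, 0 ≤ w T) ∧ (∀ T, w T ≤ K / nn V) ∧
    (∀ T, w T ≠ 0 → NW.edg T.1 ⊆ E ∧ T ∉ B ∧ al T) ∧
    ∀ e ∈ E, ∑ T ∈ univ.filter (fun T : Tri V => e ∈ NW.edg T.1), w T = 1

/-! ### Cuts and parts -/

/-- the pair `e` is inside one side of the cut `χ` -/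
def Int (χ : V → Bool) (e : Sym2 V) : Prop := ∀ u ∈ e, ∀ v ∈ e, χ u = χ v

instance (χ : V → Bool) (e : Sym2 V) : Decidable (Int χ e) := by unfold Int; infer_instance

/-- the weight of a pair for the cut `χ`: `2` inside, `-1` across -/
def gam (χ : V → Bool) (e : Sym2 V) : ℤ := if Int χ e then 2 else -1

/-- the triangle meets both sides of the cut -/
def Cro (χ : V → Bool) (T : Tri V) : Prop := ∃ u ∈ T.1, ∃ v ∈ T.1, χ u ≠ χ v

instance (χ : V → Bool) (T : Tri V) : Decidable (Cro χ T) := by unfold Cro; infer_instance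

/-- the part `(b, c)` is core for the vertex `v`: `fl b = true`: the side `b` consists of two
cliques (type D), `fl b = false`: the side `b` is bipartite (type P); `pt` is the part -/
def CoP (fl : Bool → Bool) (sd pt : V → Bool) (v : V) (b c : Bool) : Prop :=
  sd v ≠ b ∨ (if fl b = true then pt v = c else pt v ≠ c)

instance (fl : Bool → Bool) (sd pt : V → Bool) (v : V) (b c : Bool) :
    Decidable (CoP fl sd pt v b c) := by
  unfold CoP; infer_instance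

/-- core pairs of a rigid structure (symmetric) -/
def Co (fl : Bool → Bool) (sd pt : V → Bool) (u v : V) : Prop := CoP fl sd pt u (sd v) (pt v)

instance (fl : Bool → Bool) (sd pt : V → Bool) (u v : V) : Decidable (Co fl sd pt u v) := by
  unfold Co; infer_instance

/-- the allowed triangles of the generic world -/
def alG (sd : V → Bool) (T : Tri V) : Prop := Cro sd T

/-- the allowed core triangles of a rigid world -/
def alR (fl : Bool → Bool) (sd pt : V → Bool) (T : Tri V) : Prop :=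
  Cro sd T ∧ ∀ u ∈ T.1, ∀ v ∈ T.1, u ≠ v → Co fl sd pt u v

/-- the torsion weight of the types DD (`fl true = true`) and PD (`fl true = false`); the side
`false` is of type D in both cases -/
def tau (fl : Bool → Bool) (sd pt : V → Bool) (e : Sym2 V) : ZMod 4 :=
  if fl true = true then
    (if ∃ u ∈ e, ∃ v ∈ e, sd u = true ∧ pt u = true ∧ sd v = false ∧ pt v = true then 2 else 0)
  else
    (if ∃ u ∈ e, ∃ v ∈ e, sd u = true ∧ pt u = true ∧ sd v = false ∧ pt v = false then 1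
      else if ∃ u ∈ e, ∃ v ∈ e, sd u = true ∧ pt u = false ∧ sd v = false ∧ pt v = false then -1
      else if ∀ u ∈ e, sd u = false ∧ pt u = false then 2 else 0)

/-! ### Robust frames (for absorbers, pieces, tokens, boosters) -/

/-- world N -/
structure RobN (H : Finset (Sym2 V)) (θ : ℝ) : Prop where
  nl : NW.NL H
  three : ∀ x y z : V, nn V / 8 ≤ ((nbr H x ∩ nbr H y ∩ nbr H z).card : ℝ)
  walk : ∀ x₁ x₂ : V, x₁ ≠ x₂ → ∀ y ∈ nbr H x₁ ∩ nbr H x₂, ∀ z ∈ nbr H x₁ ∩ nbr H x₂,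
    θ * nn V ^ 4 ≤ ((walks5 H (nbr H x₁ ∩ nbr H x₂) y z).card : ℝ)

/-- the vertices of the side `b` of the cut `sd` -/
def Sd (sd : V → Bool) (b : Bool) : Finset V := univ.filter (fun v => sd v = b)

/-- the vertices of the part `(b, c)` -/
def Pa (sd pt : V → Bool) (b c : Bool) : Finset V := univ.filter (fun v => sd v = b ∧ pt v = c)

/-- generic world; `H` the core edges, `At` the atypical vertices; the side `false` is generic -/
structure RobG (H : Finset (Sym2 V)) (sd : V → Bool) (At : Finset V) (ε θ : ℝ) : Prop where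
  nl : NW.NL H
  side : ∀ b, ((Sd sd b).card : ℝ) ≤ (1 / 2 + ε) * nn V
  At_card : (At.card : ℝ) ≤ ε * nn V
  noAt : ∀ u ∈ At, ∀ v ∈ At, s(u, v) ∉ H
  miss : ∀ v, v ∉ At → (((Sd sd (!sd v)).filter (fun w => s(v, w) ∉ H)).card : ℝ) ≤ ε * nn V
  cross : ∀ v, (3 / 8 - ε) * nn V ≤ ((nbr H v ∩ Sd sd (!sd v)).card : ℝ)
  int : ∀ v, (1 / 4 - ε) * nn V ≤ ((nbr H v ∩ Sd sd (sd v)).card : ℝ)
  gen1 : ∀ y z, y ∉ At → z ∉ At → sd y = false → sd z = false →
    θ * nn V ^ 4 ≤ ((walks5 H (Sd sd false \ At) y z).card : ℝ)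
  gen2 : ∀ y z, y ∉ At → z ∉ At → sd y = false → sd z = false →
    θ * nn V ≤ (((Sd sd false \ At).filter (fun x =>
      θ * nn V ≤ (((nbr H x ∩ nbr H y) ∩ (Sd sd false \ At)).card : ℝ) ∧
      θ * nn V ≤ (((nbr H x ∩ nbr H z) ∩ (Sd sd false \ At)).card : ℝ))).card : ℝ)

/-- rigid worlds -/
structure RobR (H : Finset (Sym2 V)) (fl : Bool → Bool) (sd pt : V → Bool) (At : Finset V)
    (ε : ℝ) : Prop where
  nl : NW.NL H
  part : ∀ b c, ((Pa sd pt b c).card : ℝ) ≤ (1 / 4 + ε) * nn V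
  At_card : (At.card : ℝ) ≤ ε * nn V
  noAt : ∀ u ∈ At, ∀ v ∈ At, s(u, v) ∉ H
  core : ∀ u v, s(u, v) ∈ H → Co fl sd pt u v
  miss : ∀ v, v ∉ At → ((univ.filter (fun w => Co fl sd pt v w ∧ s(v, w) ∉ H)).card : ℝ) ≤
    ε * nn V
  deg : ∀ v b c, CoP fl sd pt v b c →
    (1 / 8 - ε) * nn V ≤ ((nbr H v ∩ Pa sd pt b c).card : ℝ)

/-! ### Hosts for the omni-absorber -/

/-- `D` is divisible with all invariants zero -/
def Good0 {r : ℕ} (γ : Fin r → Sym2 V → ℤ) (τ : Sym2 V → ZMod 4) (D : Finset (Sym2 V)) : Prop :=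
  NW.Divis D ∧ (∀ j, ∑ e ∈ D, γ j e = 0) ∧ ∑ e ∈ D, τ e = 0

/-- `A` absorbs all subgraphs of `H` on `U` which satisfy `Φ` -/
structure AbsA (al : Tri V → Prop) (H : Finset (Sym2 V)) (Φ : Finset (Sym2 V) → Prop)
    (U : Finset V) (A : Finset (Sym2 V)) : Prop where
  dec : DecA al A
  new : ∀ e ∈ A, ∃ v ∈ e, v ∉ U
  abs : ∀ D, D ⊆ H → D ⊆ U.sym2 → Φ D → DecA al (A ∪ D)

/-- absorbers exist robustly in `H` -/
def AbsOK (al : Tri V → Prop) (H : Finset (Sym2 V)) (Φ : Finset (Sym2 V) → Prop) (η : ℝ)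
    (m C : ℕ) : Prop :=
  ∀ (Z : Finset (Sym2 V)) (F U : Finset V), Sm η Z → SmF η F → U.card ≤ m →
    ∃ A, A ⊆ H \ Z ∧ A.card ≤ C ∧ (∀ v ∈ F2.O.vE A, v ∈ U ∨ v ∉ F) ∧ AbsA al H Φ U A

/-- the special absorber for the exceptional edge `e₀`: no torsion condition -/
def AbsOK0 {r : ℕ} (al : Tri V → Prop) (H : Finset (Sym2 V)) (γ : Fin r → Sym2 V → ℤ)
    (e₀ : Sym2 V) (η : ℝ) (m C : ℕ) : Prop :=
  ∀ (Z : Finset (Sym2 V)) (F U : Finset V), Sm η Z → SmF η F → U.card ≤ m → e₀ ∈ U.sym2 →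
    ∃ A, A ⊆ H \ Z ∧ A.card ≤ C ∧ (∀ v ∈ F2.O.vE A, v ∈ U ∨ v ∉ F) ∧
      (∀ e ∈ A, ∃ v ∈ e, v ∉ U) ∧ NW.Divis A ∧ (∀ j, ∑ e ∈ A, γ j e = 0) ∧
      ∀ D, D ⊆ H → D ⊆ U.sym2 → NW.Divis (insert e₀ D) → (∀ j, ∑ e ∈ insert e₀ D, γ j e = 0) →
        DecA al (A ∪ insert e₀ D)

/-- pieces exist robustly -/
def PieceOK (H : Finset (Sym2 V)) (η : ℝ) : Prop :=
  ∀ (Z : Finset (Sym2 V)) (F g : Finset V), Sm η Z → SmF η F → (g = ∅ ∨ g.card = 2) →
    ∃ W, W ⊆ H \ Z ∧ F2.O.Piece g W ∧ ∀ v ∈ F2.O.vE W, v ∈ g ∨ v ∉ F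

/-- tokens: even sets of edges with number of edges divisible by 3 and prescribed invariants -/
def TokenOK {r : ℕ} (H : Finset (Sym2 V)) (γ : Fin r → Sym2 V → ℤ) (τ : Sym2 V → ZMod 4)
    (η : ℝ) (a : Fin r → ℤ) (b : ZMod 4) : Prop :=
  ∀ (Z : Finset (Sym2 V)) (F : Finset V), Sm η Z → SmF η F →
    ∃ W, W ⊆ H \ Z ∧ NW.Divis W ∧ W.card ≤ 12 ∧ (∀ v ∈ F2.O.vE W, v ∉ F) ∧
      (∀ j, ∑ e ∈ W, γ j e = a j) ∧ ∑ e ∈ W, τ e = b

/-- a host: `H` the core edges (reserve included); `m` the size of the sets on which absorbers are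
needed, `c` their size -/
structure Host (al : Tri V → Prop) (H : Finset (Sym2 V)) {r : ℕ} (γ : Fin r → Sym2 V → ℤ)
    (τ : Sym2 V → ZMod 4) (η : ℝ) (m c : ℕ) : Prop where
  nl : NW.NL H
  piece : PieceOK H η
  token : ∀ (j : Fin r) (σ : ℤ), (σ = 1 ∨ σ = -1) →
    TokenOK H γ τ η (fun i => if i = j then 6 * σ else 0) 0
  abs : AbsOK al H (Good0 γ τ) η m c
  val : ∀ D, D ⊆ H → NW.Divis D → (∀ j, 6 ∣ ∑ e ∈ D, γ j e) ∧
    (∑ e ∈ D, τ e = 0 ∨ ∑ e ∈ D, τ e = 2)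
  bd : ∀ j e, |γ j e| ≤ 4
  tri : ∀ T : Tri V, al T → NW.edg T.1 ⊆ H → (∀ j, ∑ e ∈ NW.edg T.1, γ j e = 0) ∧
    ∑ e ∈ NW.edg T.1, τ e = 0

/-- a host without torsion (`τ = 0`), or with torsion, tokens for it and the special edge `e₀` -/
inductive Tors (al : Tri V → Prop) (H : Finset (Sym2 V)) {r : ℕ} (γ : Fin r → Sym2 V → ℤ)
    (τ : Sym2 V → ZMod 4) (η : ℝ) (m c : ℕ) : Finset (Sym2 V) → Prop
  | none : (∀ e, τ e = 0) → Tors al H γ τ η m c ∅
  | some (e₀ : Sym2 V) : e₀ ∉ H → ¬ e₀.IsDiag →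
      (∀ D, D ⊆ H → NW.Divis (insert e₀ D) → ∀ j, 6 ∣ ∑ e ∈ insert e₀ D, γ j e) →
      TokenOK H γ τ η (fun _ => 0) 2 → AbsOK0 al H γ e₀ η m c → Tors al H γ τ η m c {e₀}

end Defs

end F3
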