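import Pool.Agent.F3.Defs

/-!
# Project F3: the worlds (interface between the blocks W, TY, FX, FT, HB and the assembly)
-/

set_option autoImplicit false
set_option linter.unusedSectionVars false

namespace F3

open Finset NW F1

section Worlds

variable {V : Type} [Fintype V] [DecidableEq V]

/-- near-extremal graph -/
def EX (ρ : ℝ) (E : Finset (Sym2 V)) : Prop :=
  ∃ sd : V → Bool, |((Sd sd true).card : ℝ) - nn V / 2| ≤ ρ * nn V ∧
    (((Sd sd true ×ˢ Sd sd false).filter (fun p => s(p.1, p.2) ∉ E)).card : ℝ) ≤ ρ * nn V ^ 2 ∧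
    ((∑ e ∈ E, gam sd e : ℤ) : ℝ) ≤ ρ * nn V ^ 2

/-- internal degree, cross degree -/
def di (sd : V → Bool) (E : Finset (Sym2 V)) (v : V) : ℕ := (nbr E v ∩ Sd sd (sd v)).card

def dc (sd : V → Bool) (E : Finset (Sym2 V)) (v : V) : ℕ := (nbr E v ∩ Sd sd (!sd v)).card

/-! ### Worlds G and R: designated edges -/

/-- allowed triangles: crossing ones without designated edge, internal ones with exactly one -/
def alX (De : Finset (Sym2 V)) (sd : V → Bool) (T : Tri V) : Prop :=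
  (Cro sd T ∧ Disjoint (NW.edg T.1) De) ∨ (¬ Cro sd T ∧ (NW.edg T.1 ∩ De).card = 1)

/-- the weight with designated edges -/
def gamX (De : Finset (Sym2 V)) (sd : V → Bool) (e : Sym2 V) : ℤ := if e ∈ De then -4 else gam sd e

/-- `E` the graph, `De` the designated edges, `H` the core edges -/
structure WX (E De H : Finset (Sym2 V)) (sd : V → Bool) (At : Finset V) (ε θ c : ℝ) : Prop where
  div : NW.Divis E
  deg3 : ∀ v, 3 * Fintype.card V ≤ 4 * NW.deg E v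
  loc : ∀ v, di sd E v ≤ dc sd E v
  De_sub : De ⊆ E
  De_int : ∀ e ∈ De, Int sd e
  De_typ : ∀ e ∈ De, ∃ v ∈ e, v ∉ At
  tot : ∑ e ∈ E, gam sd e = 6 * (De.card : ℤ)
  H_sub : H ⊆ E \ De
  side : ∀ b, |((Sd sd b).card : ℝ) - nn V / 2| ≤ ε * nn V
  At_card : (At.card : ℝ) ≤ ε * nn V
  miss : ∀ v, v ∉ At → (((Sd sd (!sd v)).filter (fun w => s(v, w) ∉ E)).card : ℝ) ≤ ε * nn V
  intT : ∀ v, v ∉ At → |(di sd E v : ℝ) - nn V / 4| ≤ ε * nn V
  De_T : ∀ v, v ∉ At → (NW.deg De v : ℝ) ≤ ε * nn V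
  De_A : ∀ v, (NW.deg De v : ℝ) ≤ nn V / 50
  int : ∀ v, (1 / 4 - ε) * nn V ≤ (di sd E v : ℝ)
  cross : ∀ v, (3 / 8 - ε) * nn V ≤ (dc sd E v : ℝ)
  slack : ∀ v, (di sd E v : ℝ) + nn V / 200 ≤ dc sd E v + 2 * NW.deg De v
  rich : ∀ p q, s(p, q) ∈ De → c * nn V ≤
    (((Sd sd (sd p) \ At).filter (fun r => s(p, r) ∈ H ∧ s(q, r) ∈ H)).card : ℝ)
  richA : ∀ p q, s(p, q) ∈ De → p ∈ At → nn V / 12 ≤
    (((Sd sd (sd p) \ At).filter (fun r => s(p, r) ∈ H ∧ s(q, r) ∈ H)).card : ℝ)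
  odd : ∀ y, y ∉ At → sd y = false →
    θ * nn V ^ 4 ≤ ((walks5 (E \ De) (Sd sd false \ At) y y).card : ℝ)

/-- world G: the core edges are all ordinary edges with a typical end -/
structure WG (E De H : Finset (Sym2 V)) (sd : V → Bool) (At : Finset V) (ε θ c : ℝ) : Prop where
  x : WX E De H sd At ε θ c
  H_eq : H = (E \ De).filter (fun e => ∃ v ∈ e, v ∉ At)
  rob : RobG H sd At ε θ

/-- world R: side `false` is of type D (two cliques); `e₀` is an exceptional edge with both apex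
classes -/
structure WR (E De H : Finset (Sym2 V)) (fl : Bool → Bool) (sd pt : V → Bool) (At : Finset V)
    (e₀ : Sym2 V) (ε θ c : ℝ) : Prop where
  x : WX E De H sd At ε θ c
  flD : fl false = true
  H_eq : H = (E \ De).filter (fun e => (∃ v ∈ e, v ∉ At) ∧ ∀ u ∈ e, ∀ v ∈ e, u ≠ v → Co fl sd pt u v)
  rob : RobR H fl sd pt At ε
  maj : ∀ v c', CoP fl sd pt v (sd v) c' →
    (nbr E v ∩ Pa sd pt (sd v) (!c')).card ≤ (nbr E v ∩ Pa sd pt (sd v) c').card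
  e₀_mem : e₀ ∈ E \ De
  e₀_typ : ∃ v ∈ e₀, v ∉ At
  e₀_exc : Int sd e₀ ∧ ∀ u v, e₀ = s(u, v) → ¬ Co fl sd pt u v
  e₀_apex : ∀ u v, e₀ = s(u, v) → ∀ b : Bool, c * nn V ≤
    (((Pa sd pt (!sd u) b \ At).filter (fun w => s(u, w) ∈ H ∧ s(v, w) ∈ H)).card : ℝ)

/-! ### World T: typed exceptional edges -/

/-- the three cuts of the 4-partite world -/
def cut (sd pt : V → Bool) (t : Fin 3) (v : V) : Bool :=
  if t = 0 then sd v else if t = 1 then pt v else xor (sd v) (pt v)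

/-- `u`, `v` are in different parts and inside one side of the cut `t` (type `t`) -/
def CT (sd pt : V → Bool) (t : Fin 3) (u v : V) : Prop :=
  cut sd pt t u = cut sd pt t v ∧ ¬ (sd u = sd v ∧ pt u = pt v)

instance (sd pt : V → Bool) (t : Fin 3) (u v : V) : Decidable (CT sd pt t u v) := by
  unfold CT; infer_instance

/-- the exceptional pair: both vertices in the same part -/
def Exc (sd pt : V → Bool) (e : Sym2 V) : Prop := ∀ u ∈ e, ∀ v ∈ e, sd u = sd v ∧ pt u = pt v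

instance (sd pt : V → Bool) (e : Sym2 V) : Decidable (Exc sd pt e) := by
  unfold Exc; infer_instance

/-- allowed triangles of world T -/
def alT (sd pt : V → Bool) (ty : Sym2 V → Fin 3) (T : Tri V) : Prop :=
  (∀ u ∈ T.1, ∀ v ∈ T.1, u ≠ v → ¬ (sd u = sd v ∧ pt u = pt v)) ∨
  ∃ u v w : V, T.1 = {u, v, w} ∧ u ≠ v ∧ (sd u = sd v ∧ pt u = pt v) ∧ CT sd pt (ty s(u, v)) u w

/-- the weights -/
def gamT (sd pt : V → Bool) (ty : Sym2 V → Fin 3) (t : Fin 3) (e : Sym2 V) : ℤ :=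
  if Exc sd pt e ∧ ty e = t then -4 else gam (cut sd pt t) e

/-- number of core neighbours of type `t` -/
def NT (sd pt : V → Bool) (E : Finset (Sym2 V)) (t : Fin 3) (v : V) : ℕ :=
  ((nbr E v).filter (fun w => CT sd pt t v w)).card

/-- number of exceptional edges of type `t` at `v` -/
def mT (sd pt : V → Bool) (ty : Sym2 V → Fin 3) (E : Finset (Sym2 V)) (t : Fin 3) (v : V) : ℕ :=
  ((nbr E v).filter (fun w => (sd v = sd w ∧ pt v = pt w) ∧ ty s(v, w) = t)).card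

structure WT (E H : Finset (Sym2 V)) (sd pt : V → Bool) (ty : Sym2 V → Fin 3) (At : Finset V)
    (ε c : ℝ) : Prop where
  div : NW.Divis E
  deg3 : ∀ v, 3 * Fintype.card V ≤ 4 * NW.deg E v
  max4 : ∀ v t, ((nbr E v).filter (fun w => sd v = sd w ∧ pt v = pt w)).card ≤ NT sd pt E t v
  tot : ∀ t, ∑ e ∈ E, gamT sd pt ty t e = 0
  part : ∀ a b, |((Pa sd pt a b).card : ℝ) - nn V / 4| ≤ ε * nn V
  At_card : (At.card : ℝ) ≤ ε * nn V
  miss : ∀ v, v ∉ At →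
    ((univ.filter (fun w => ¬ (sd v = sd w ∧ pt v = pt w) ∧ s(v, w) ∉ E)).card : ℝ) ≤ ε * nn V
  exc : ∀ v, v ∉ At →
    (((nbr E v).filter (fun w => sd v = sd w ∧ pt v = pt w)).card : ℝ) ≤ ε * nn V
  deg : ∀ v t, (1 / 8 - ε) * nn V ≤ (NT sd pt E t v : ℝ)
  H_eq : H = E.filter (fun e => (∃ v ∈ e, v ∉ At) ∧ ¬ Exc sd pt e)
  rob : RobR H (fun _ => false) sd pt At ε
  slack : ∀ v t, ((NT sd pt E t v : ℝ) - mT sd pt ty E t v) + nn V / 100 ≤
    ∑ t' ∈ univ.erase t, ((NT sd pt E t' v : ℝ) - mT sd pt ty E t' v)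
  feas : ∀ u v, s(u, v) ∈ E → (sd u = sd v ∧ pt u = pt v) → c * nn V ≤
    (((univ \ At).filter (fun w => CT sd pt (ty s(u, v)) u w ∧ s(u, w) ∈ H ∧ s(v, w) ∈ H)).card : ℝ)
  feasC : ∀ u v, s(u, v) ∈ E → ¬ (sd u = sd v ∧ pt u = pt v) → c * nn V ≤
    (((univ \ At).filter (fun w => ¬ (sd u = sd w ∧ pt u = pt w) ∧ ¬ (sd v = sd w ∧ pt v = pt w) ∧
      s(u, w) ∈ H ∧ s(v, w) ∈ H)).card : ℝ)

/-- world S: `H` are the edges with a typical end; the side `false` has many triangles -/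
structure WS (E H : Finset (Sym2 V)) (sd : V → Bool) (At : Finset V) (ε θ : ℝ) : Prop where
  H_eq : H = E.filter (fun e => ∃ v ∈ e, v ∉ At)
  rob : RobG H sd At ε θ
  tri : θ * nn V ^ 3 ≤
    ((univ.filter (fun T : Tri V => T.1 ⊆ Sd sd false \ At ∧ NW.edg T.1 ⊆ H)).card : ℝ)

end Worlds

/-! ### Block NEF (helper56) -/

def NEFStatement : Prop :=
  ∀ ρ : ℝ, 0 < ρ → ∃ η K κ : ℝ, 0 < η ∧ 0 < K ∧ 0 < κ ∧ ∃ n₀ : ℕ,
    ∀ (V : Type) [Fintype V] [DecidableEq V] (E : Finset (Sym2 V)), NW.NL E →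
      n₀ ≤ Fintype.card V → (∀ v, (3 / 4 - η) * nn V ≤ (NW.deg E v : ℝ)) → ¬ EX ρ E →
      ∀ (F : Finset (Sym2 V)) (B : Finset (Tri V)), Sm κ F → SmT κ B →
        Frac K (fun _ => True) (E \ F) B

/-! ### Block FX, FT (helper94) -/

def FXStatement : Prop :=
  ∀ θ c : ℝ, 0 < θ → 0 < c → ∃ ε K κ : ℝ, 0 < ε ∧ 0 < K ∧ 0 < κ ∧ ∃ n₀ : ℕ,
    ∀ (V : Type) [Fintype V] [DecidableEq V] (E De H R : Finset (Sym2 V)) (sd : V → Bool)
      (At : Finset V) (B : Finset (Tri V)), n₀ ≤ Fintype.card V → WX E De H sd At ε θ c →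
      R ⊆ E \ De → Sm κ R → ∑ e ∈ R, gam sd e = 0 → SmT κ B → Frac K (alX De sd) (E \ R) B

def FTStatement : Prop :=
  ∀ c : ℝ, 0 < c → ∃ ε K κ : ℝ, 0 < ε ∧ 0 < K ∧ 0 < κ ∧ ∃ n₀ : ℕ,
    ∀ (V : Type) [Fintype V] [DecidableEq V] (E H R : Finset (Sym2 V)) (sd pt : V → Bool)
      (ty : Sym2 V → Fin 3) (At : Finset V) (B : Finset (Tri V)), n₀ ≤ Fintype.card V →
      WT E H sd pt ty At ε c → R ⊆ E → (∀ e ∈ R, ¬ Exc sd pt e) → Sm κ R →
      (∀ t, ∑ e ∈ R, gam (cut sd pt t) e = 0) → SmT κ B → Frac K (alT sd pt ty) (E \ R) B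

/-! ### The case distinction (blocks W and TY: helper53, helper16) -/

/-- All cases. The order of the constants: worlds R, T have absolute `c`, `θr` and arbitrary small
`εR`; then the generic world G with `θG`, `cG` depending on `εR` and arbitrary small `εG`; then `ρ`;
outside of `EX ρ`: world S with `θS` depending on `ρ` and arbitrary small `εS`; then world N. -/
def CaseStatement : Prop :=
  ∃ c θr : ℝ, 0 < c ∧ 0 < θr ∧ ∀ εR : ℝ, 0 < εR → ∃ θG cG : ℝ, 0 < θG ∧ 0 < cG ∧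
    ∀ εG : ℝ, 0 < εG → ∃ ρ : ℝ, 0 < ρ ∧ ∃ θS : ℝ, 0 < θS ∧ ∀ εS : ℝ, 0 < εS →
    ∃ θN : ℝ, 0 < θN ∧ ∃ n₀ : ℕ,
    ∀ (V : Type) [Fintype V] [DecidableEq V] (E : Finset (Sym2 V)), NW.Divis E →
      n₀ ≤ Fintype.card V → (∀ v, 3 * Fintype.card V ≤ 4 * NW.deg E v) →
      (¬ EX ρ E ∧ (RobN E θN ∨ ∃ H sd At, WS E H sd At εS θS)) ∨
      (∃ De H sd At, WG E De H sd At εG θG cG) ∨
      (∃ De H fl sd pt At e₀, WR E De H fl sd pt At e₀ εR θr c) ∨
      (∃ H sd pt ty At, WT E H sd pt ty At εR c)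

/-- the final theorem, for edge sets -/
def MainStatement : Prop :=
  ∀ g : ℕ, ∃ n₀ : ℕ,
    ∀ (V : Type) [Fintype V] [DecidableEq V] (E : Finset (Sym2 V)), NW.Divis E →
      n₀ ≤ Fintype.card V → (∀ v, 3 * Fintype.card V ≤ 4 * NW.deg E v) →
      ∃ 𝒯 : Finset (Finset V), NW.IsPack 𝒯 E ∧ 𝒯.biUnion NW.edg = E ∧
        ∀ U : Finset V, 4 ≤ U.card → U.card < g →
          (𝒯.filter (fun t => t ⊆ U)).card + 2 < U.card

end F3
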