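import Pool.Agent.F3.Inst.Main
import Pool.Agent.F3.TY.All
import Pool.Agent.F3.W.Main
import Pool.Agent.F3.HB.Final
import Pool.Agent.F3.NEF.Main
import Pool.Agent.F3.FT.Main
import Pool.Agent.F3.FX.Main
import Pool.Agent.F3.AB.Main
import Pool.Agent.F3.Asm.Final
import Pool.Agent.F3.OG.Asm
import Pool.Agent.F3.OG.Net
import Pool.Agent.F3.OG.Tok
import Pool.Agent.F3.OG.Chain
import Pool.Agent.F3.OG.CellL
import Pool.Agent.F3.OG.BSk
import Pool.Agent.F3.OG.EmbG
import Pool.Agent.F3.OG.Pc
import Pool.Agent.F3.OG.Tk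
import Pool.Agent.F3.OG.ItmC
import Pool.Agent.F3.OG.AboE
import Pool.Agent.F3.OG.Ball
import Pool.Agent.F3.OG.Vals
import Pool.Agent.F3.OG.Site
import Pool.Agent.F3.OG.StateF
import Pool.Agent.F3.OG.Tot
import Pool.Agent.F3.OG.FinF

/-!
# Project F3: everything together

For every `g`, every large `K₃`-divisible graph on `n` vertices with minimum degree at least
`3 n / 4` has a `K₃`-decomposition of girth at least `g` (frozen statement S09297).
-/

set_option autoImplicit false

namespace F3

theorem ogS : OGStatement :=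
  OG.og_of OG.net OG.en_st OG.log_st OG.cellL (OG.bsk OG.cellL) (OG.pc OG.embG) (OG.tk OG.embG)
    OG.itm (OG.abo OG.embG) OG.ball_st (OG.stateF OG.tok OG.chain OG.vals OG.site) OG.tot OG.finF

theorem asmS : AsmStatement := asm ogS gridXst

theorem caseAll : CaseStatement := caseS worlds_w

theorem simpleS : SimpleStatement :=
  simple_of caseAll asmS nef FX.fx FT.ft AB.outN AB.outS AB.outG AB.outR AB.outT hbN hbS hbG hbR
    hbT val

end F3
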